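import Pool.Agent.Q80.FB.Slot
import Pool.Agent.Q80.FB.Walk

/-!
A faithful minimal strongly proximal action of a free group of finite rank on a compact
metrizable space which is not topologically free.
-/

set_option autoImplicit false

namespace Pool.Agent.Results.MP_0c6837_al.NotTopologicallyFree

open Pool.Agent.Q80.FB

lemma contracts_comp {F F' X : Type} [Group F] [Group F'] [TopologicalSpace X] [MeasurableSpace X]
    [BorelSpace X] {φ : F →* (X ≃ₜ X)} (i : F' ≃* F) (h : Contracts φ) :
    Contracts (φ.comp i.toMonoidHom) := by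
  intro O hO hne μ hμ ε hε
  obtain ⟨g, hg⟩ := h O hO hne μ hμ ε hε
  refine ⟨i.symm g, ?_⟩
  simpa using hg

/-- For every `n ≥ 5` there is a faithful, minimal, strongly proximal action of the free group of
rank `n` on a compact metrizable space which is not topologically free. -/
theorem result (n : ℕ) (hn : 5 ≤ n) :
    ∃ (X : Type) (_ : TopologicalSpace X) (φ : FreeGroup (Fin n) →* (X ≃ₜ X)),
      Nonempty X ∧ CompactSpace X ∧ T2Space X ∧ TopologicalSpace.MetrizableSpace X ∧
        Function.Injective φ ∧ IsMinimal φ ∧ IsStronglyProximal φ ∧ ¬ IsTopologicallyFree φ := by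
  obtain ⟨m, rfl⟩ : ∃ m, n = m + 5 := ⟨n - 5, by omega⟩
  have hcard : Fintype.card (Option (A1 m)) = m + 5 := by
    simp [Fintype.card_option, Fintype.card_sum]
    omega
  let i : FreeGroup (Fin (m + 5)) ≃* FreeGroup (Option (A1 m)) :=
    FreeGroup.freeGroupCongr (Fintype.equivFinOfCardEq hcard).symm
  obtain ⟨a, b, hab⟩ := z_nontrivial m
  haveI : Nonempty (Z m) := ⟨a⟩
  let φ : FreeGroup (Fin (m + 5)) →* (XX (Z m) ≃ₜ XX (Z m)) := (act (sigma m)).comp i.toMonoidHom
  have hinj : Function.Injective φ :=
    (act_injective (sigma m) ⟨a, b, hab⟩ fun γ hγ j hj => star m hγ j hj).comp i.injective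
  have hcon : ∀ [MeasurableSpace (XX (Z m))] [BorelSpace (XX (Z m))], Contracts φ := by
    intro i1 i2
    letI i3 : MeasurableSpace (Fin 3 × Z m) := borel _
    haveI : BorelSpace (Fin 3 × Z m) := ⟨rfl⟩
    exact contracts_comp i (contracts_act (sigma m) (contracts_sigma m))
  refine ⟨XX (Z m), inferInstance, φ, inferInstance, inferInstance, inferInstance, inferInstance,
    hinj, ?_, ?_, ?_⟩
  · letI : MeasurableSpace (XX (Z m)) := borel _
    haveI : BorelSpace (XX (Z m)) := ⟨rfl⟩
    exact hcon.isMinimal
  · exact Contracts.isStronglyProximal (letI : MeasurableSpace (XX (Z m)) := borel _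
      haveI : BorelSpace (XX (Z m)) := ⟨rfl⟩
      hcon)
  · intro hfree
    have hopen : IsOpen {f : XX (Z m) | f.1 = 0} :=
      (isOpen_discrete {(0 : Fin 3)}).preimage continuous_fst
    obtain ⟨f, hf0, hf⟩ := hfree.inter_open_nonempty _ hopen ⟨(0, fun _ => a), rfl⟩
    have h1 := hf (i.symm (FreeGroup.of none)) (by
      change act (sigma m) (i (i.symm (FreeGroup.of none))) f = f
      rw [MulEquiv.apply_symm_apply]
      exact act_fixed (sigma m) f hf0)
    have h2 : (FreeGroup.of (none : Option (A1 m))) = 1 := by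
      have := congrArg i h1
      rwa [MulEquiv.apply_symm_apply, map_one] at this
    exact FreeGroup.of_ne_one _ h2

end Pool.Agent.Results.MP_0c6837_al.NotTopologicallyFree
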